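import Mathlib

/-!
Polycyclic-by-finite groups, nilpotent-by-(polycyclic-by-finite) groups.
-/

set_option autoImplicit false

namespace Pool.Agent.V1128.Sol

universe u

/-- A group is polycyclic if it has a finite subnormal series with cyclic factors. -/
def IsPolycyclic (G : Type u) [Group G] : Prop :=
  ∃ (n : ℕ) (H : ℕ → Subgroup G), H 0 = ⊥ ∧ H n = ⊤ ∧ ∀ i < n, H i ≤ H (i + 1) ∧
    (∀ g ∈ H (i + 1), ∀ h ∈ H i, g * h * g⁻¹ ∈ H i) ∧
    ∃ g ∈ H (i + 1), ∀ x ∈ H (i + 1), ∃ k : ℤ, g ^ (-k) * x ∈ H i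

/-- A group is polycyclic-by-finite if it has a polycyclic normal subgroup of finite index. -/
def IsPolycyclicByFinite (G : Type u) [Group G] : Prop :=
  ∃ N : Subgroup G, N.Normal ∧ N.FiniteIndex ∧ IsPolycyclic N

/-- The class of nilpotent-by-(polycyclic-by-finite) groups. -/
def IsNPF (G : Type u) [Group G] : Prop :=
  ∃ (K : Subgroup G) (_ : K.Normal), Group.IsNilpotent K ∧ IsPolycyclicByFinite (G ⧸ K)

/-- The class `(𝔛, ∞)*` for the class `𝔛` of nilpotent-by-(polycyclic-by-finite) groups: every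
infinite subset contains distinct elements `x`, `y` such that `⟨x, x ^ y⟩` lies in `𝔛`, where
`x ^ y = y⁻¹ x y`. -/
def InStar (G : Type u) [Group G] : Prop :=
  ∀ S : Set G, S.Infinite → ∃ x ∈ S, ∃ y ∈ S, x ≠ y ∧
    IsNPF (Subgroup.closure {x, y⁻¹ * x * y})

end Pool.Agent.V1128.Sol
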