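import Mathlib
import Pool.Agent.V1128.Sol.Defs

set_option autoImplicit false

namespace Pool.Agent.V1128.Sol

universe u

variable {G : Type u} [Group G]

/-- cyclic groups are polycyclic-by-finite -/
lemma IsPolycyclicByFinite.of_isCyclic [IsCyclic G] : IsPolycyclicByFinite G := by
  refine ⟨⊤, inferInstance, inferInstance, 1, fun i => if i = 0 then ⊥ else ⊤, by simp, by simp,
    ?_⟩
  intro i hi
  have hi0 : i = 0 := by omega
  subst hi0
  obtain ⟨g, hg⟩ := IsCyclic.exists_generator (α := G)
  refine ⟨by simp, ?_, ⟨g, trivial⟩, by simp, ?_⟩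
  · intro a _ b hb
    simp only [if_true, Subgroup.mem_bot] at hb ⊢
    rw [hb]
    simp
  · intro x _
    obtain ⟨k, hk⟩ := hg x.1
    refine ⟨k, ?_⟩
    simp only [if_true, Subgroup.mem_bot]
    apply Subtype.ext
    have hk' : g ^ k = x.1 := hk
    simp [← hk']

/-- torsion subgroups of polycyclic groups are finite -/
lemma IsPolycyclic.finite_of_torsion (h : IsPolycyclic G) (T : Subgroup G)
    (hT : ∀ x ∈ T, IsOfFinOrder x) : (T : Set G).Finite := by
  obtain ⟨n, H, h0, hn, hs⟩ := h
  have key : ∀ i ≤ n, ({x | x ∈ T ∧ x ∈ H i} : Set G).Finite := by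
    intro i
    induction i with
    | zero =>
      intro _
      apply Set.Finite.subset (Set.finite_singleton (1 : G))
      rintro x ⟨-, hx⟩
      rw [h0] at hx
      exact Subgroup.mem_bot.mp hx
    | succ i ih =>
      intro hi
      have ih' := ih (by omega)
      obtain ⟨hle, hnorm, g, hg, hcyc⟩ := hs i (by omega)
      -- each coset is finite
      have hcoset : ∀ k : ℤ, ({x | x ∈ T ∧ g ^ (-k) * x ∈ H i} : Set G).Finite := by
        intro k
        rcases Set.eq_empty_or_nonempty {x | x ∈ T ∧ g ^ (-k) * x ∈ H i} with he | ⟨x₀, hx₀, hx₁⟩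
        · rw [he]; exact Set.finite_empty
        · apply Set.Finite.subset (ih'.image (fun y => x₀ * y))
          rintro x ⟨hx, hx'⟩
          refine ⟨x₀⁻¹ * x, ⟨T.mul_mem (T.inv_mem hx₀) hx, ?_⟩, by simp⟩
          have : x₀⁻¹ * x = (g ^ (-k) * x₀)⁻¹ * (g ^ (-k) * x) := by group
          rw [this]
          exact (H i).mul_mem ((H i).inv_mem hx₁) hx'
      by_cases he : ∃ e : ℕ, 0 < e ∧ g ^ e ∈ H i
      · obtain ⟨e, he0, he⟩ := he
        have hfin : (⋃ k ∈ Finset.range e, ({x | x ∈ T ∧ g ^ (-(k : ℤ)) * x ∈ H i} : Set G)).Finite :=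
          Set.Finite.biUnion (Finset.finite_toSet _) fun k _ => hcoset k
        apply Set.Finite.subset hfin
        rintro x ⟨hx, hx'⟩
        obtain ⟨k, hk⟩ := hcyc x hx'
        have he' : (0 : ℤ) < e := by exact_mod_cast he0
        have h1 : 0 ≤ k % e := Int.emod_nonneg _ he'.ne'
        have h2 : k % e < e := Int.emod_lt_of_pos _ he'
        obtain ⟨m, hm⟩ := Int.eq_ofNat_of_zero_le h1
        rw [Set.mem_iUnion₂]
        refine ⟨m, ?_, hx, ?_⟩
        · rw [Finset.mem_range]
          omega
        · have h3 : -(m : ℤ) = e * (k / e) + (-k) := by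
            have := Int.emod_add_mul_ediv k e
            have hm' : k % e = (m : ℤ) := hm
            linarith
          rw [h3, zpow_add, zpow_mul, mul_assoc]
          apply (H i).mul_mem _ hk
          rw [zpow_natCast]
          exact (H i).zpow_mem he _
      · push Not at he
        apply Set.Finite.subset ih'
        rintro x ⟨hx, hx'⟩
        refine ⟨hx, ?_⟩
        obtain ⟨k, hk⟩ := hcyc x hx'
        obtain ⟨N, hN, hxN⟩ := isOfFinOrder_iff_pow_eq_one.mp (hT x hx)
        have hpow : ∀ m : ℕ, g ^ (-(k * m)) * x ^ m ∈ H i := by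
          intro m
          induction m with
          | zero => simp
          | succ m ihm =>
            have e1 : g ^ (-(k * ((m + 1 : ℕ) : ℤ))) * x ^ (m + 1) =
                (g ^ (-k) * (g ^ (-(k * m)) * x ^ m) * (g ^ (-k))⁻¹) * (g ^ (-k) * x) := by
              push_cast
              rw [pow_succ]
              group
            rw [e1]
            exact (H i).mul_mem (hnorm _ ((H (i + 1)).zpow_mem hg _) _ ihm) hk
        have h1 := hpow N
        rw [hxN, mul_one] at h1
        have hk0 : k = 0 := by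
          by_contra hk0
          have h2 : g ^ ((k * N).natAbs) ∈ H i := by
            rcases Int.natAbs_eq (k * N) with h | h
            · rw [← zpow_natCast, ← h]
              have := (H i).inv_mem h1
              rwa [← zpow_neg, neg_neg] at this
            · have h3 : (((k * N).natAbs : ℕ) : ℤ) = -(k * N) := by omega
              rw [← zpow_natCast, h3]
              exact h1
          apply he _ _ h2
          apply Int.natAbs_pos.mpr
          exact mul_ne_zero hk0 (by exact_mod_cast hN.ne')
        rw [hk0] at hk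
        simpa using hk
  have := key n le_rfl
  rw [hn] at this
  simpa using this

/-- torsion subgroups of polycyclic-by-finite groups are finite -/
lemma IsPolycyclicByFinite.finite_of_torsion (h : IsPolycyclicByFinite G) (T : Subgroup G)
    (hT : ∀ x ∈ T, IsOfFinOrder x) : (T : Set G).Finite := by
  obtain ⟨N, hN, hfi, hpoly⟩ := h
  have h1 : ((T.subgroupOf N : Subgroup N) : Set N).Finite := by
    apply hpoly.finite_of_torsion
    intro x hx
    have := hT x.1 (Subgroup.mem_subgroupOf.mp hx)
    obtain ⟨n, hn, hxn⟩ := isOfFinOrder_iff_pow_eq_one.mp this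
    exact isOfFinOrder_iff_pow_eq_one.mpr ⟨n, hn, Subtype.ext hxn⟩
  have h2 : ({x | x ∈ T ∧ x ∈ N} : Set G).Finite := by
    apply Set.Finite.subset (h1.image Subtype.val)
    rintro x ⟨hx, hxN⟩
    exact ⟨⟨x, hxN⟩, Subgroup.mem_subgroupOf.mpr hx, rfl⟩
  have h3 : (T : Set G) ⊆ ⋃ q : G ⧸ N, {x | x ∈ T ∧ (x : G ⧸ N) = q} := by
    intro x hx
    rw [Set.mem_iUnion]
    exact ⟨x, hx, rfl⟩
  apply Set.Finite.subset _ h3
  apply Set.finite_iUnion
  intro q
  rcases Set.eq_empty_or_nonempty {x | x ∈ T ∧ (x : G ⧸ N) = q} with he | ⟨x₀, hx₀, hx₁⟩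
  · rw [he]; exact Set.finite_empty
  · apply Set.Finite.subset (h2.image (fun y => x₀ * y))
    rintro x ⟨hx, hx'⟩
    refine ⟨x₀⁻¹ * x, ⟨T.mul_mem (T.inv_mem hx₀) hx, ?_⟩, by simp⟩
    rw [← QuotientGroup.eq]
    rw [hx₁, hx']

end Pool.Agent.V1128.Sol
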