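import Mathlib

/-!
The algebra over the field with two elements generated by elements `u v`, `v ∈ ℤ × ℤ`, with the
relations `u v * u w * u z = 0` for collinear points.
-/

set_option autoImplicit false

namespace Pool.Agent.V1128.Sol

open MvPolynomial

/-- points of the plane lattice -/
abbrev Pt := ℤ × ℤ

/-- three points are collinear iff this number vanishes -/
def det3 (v w z : Pt) : ℤ := (w.1 - v.1) * (z.2 - v.2) - (w.2 - v.2) * (z.1 - v.1)

/-- exponents of the relations -/
def gens : Set (Pt →₀ ℕ) := {m | ∃ v w z : Pt, det3 v w z = 0 ∧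
  m = Finsupp.single v 1 + Finsupp.single w 1 + Finsupp.single z 1}

/-- the ideal of relations -/
noncomputable def relI : Ideal (MvPolynomial Pt (ZMod 2)) :=
  Ideal.span ((fun s => monomial s (1 : ZMod 2)) '' gens)

/-- the algebra -/
abbrev RR := MvPolynomial Pt (ZMod 2) ⧸ relI

/-- the generators -/
noncomputable def uu (v : Pt) : RR := Ideal.Quotient.mk relI (X v)

lemma uu_mul (v w z : Pt) (h : det3 v w z = 0) : uu v * uu w * uu z = 0 := by
  have h1 : (X v * X w * X z : MvPolynomial Pt (ZMod 2)) =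
      monomial (Finsupp.single v 1 + Finsupp.single w 1 + Finsupp.single z 1) 1 := by
    rw [X, X, X, monomial_mul, monomial_mul, one_mul, one_mul]
  rw [uu, uu, uu, ← map_mul, ← map_mul, h1, Ideal.Quotient.eq_zero_iff_mem]
  exact Ideal.subset_span ⟨_, ⟨v, w, z, h, rfl⟩, rfl⟩

/-- the characteristic is two -/
lemma two_eq_zero : (2 : RR) = 0 := by
  have h : (2 : MvPolynomial Pt (ZMod 2)) = 0 := by
    exact_mod_cast CharP.cast_eq_zero (MvPolynomial Pt (ZMod 2)) 2
  have h1 : (2 : RR) = Ideal.Quotient.mk relI 2 := (map_ofNat _ 2).symm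
  rw [h1, h, map_zero]

/-! ### translations -/

lemma det3_add (v w z p : Pt) : det3 (v + p) (w + p) (z + p) = det3 v w z := by
  simp only [det3, Prod.fst_add, Prod.snd_add]
  ring

/-- translation of polynomials -/
noncomputable def tauP (p : Pt) : MvPolynomial Pt (ZMod 2) →+* MvPolynomial Pt (ZMod 2) :=
  (rename (fun v : Pt => v + p) : MvPolynomial Pt (ZMod 2) →ₐ[ZMod 2] _).toRingHom

lemma relI_le (p : Pt) : relI ≤ Ideal.comap (tauP p) relI := by
  rw [relI, Ideal.span_le]
  rintro _ ⟨m, ⟨v, w, z, h, rfl⟩, rfl⟩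
  rw [SetLike.mem_coe, Ideal.mem_comap]
  have h1 : tauP p (monomial (Finsupp.single v 1 + Finsupp.single w 1 + Finsupp.single z 1) 1) =
      monomial (Finsupp.single (v + p) 1 + Finsupp.single (w + p) 1 + Finsupp.single (z + p) 1)
        (1 : ZMod 2) := by
    show rename (fun v : Pt => v + p) (monomial _ (1 : ZMod 2)) = _
    rw [rename_monomial, Finsupp.mapDomain_add, Finsupp.mapDomain_add, Finsupp.mapDomain_single,
      Finsupp.mapDomain_single, Finsupp.mapDomain_single]
  show tauP p (monomial (Finsupp.single v 1 + Finsupp.single w 1 + Finsupp.single z 1) 1) ∈ _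
  rw [h1]
  exact Ideal.subset_span ⟨_, ⟨v + p, w + p, z + p, by rw [det3_add, h], rfl⟩, rfl⟩

/-- translation of the algebra -/
noncomputable def tau (p : Pt) : RR →+* RR :=
  Ideal.quotientMap relI (tauP p) (relI_le p)

@[simp] lemma tau_uu (p v : Pt) : tau p (uu v) = uu (v + p) := by
  rw [tau, uu, Ideal.quotientMap_mk]
  have : tauP p (X v) = X (v + p) := by
    show rename (fun v : Pt => v + p) (X v : MvPolynomial Pt (ZMod 2)) = _
    rw [rename_X]
  rw [this, uu]

lemma ringHom_ext {f g : RR →+* RR} (h : ∀ v, f (uu v) = g (uu v)) : f = g := by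
  apply Ideal.Quotient.ringHom_ext
  apply MvPolynomial.ringHom_ext
  · intro c
    have h1 : ∀ k : RR →+* RR, (k.comp (Ideal.Quotient.mk relI)) (C c) =
        (k.comp ((Ideal.Quotient.mk relI).comp C)) c := fun k => rfl
    rw [h1, h1]
    exact RingHom.congr_fun (RingHom.ext_zmod _ _) c
  · intro v
    exact h v

lemma tau_zero : tau 0 = RingHom.id RR := by
  apply ringHom_ext
  intro v
  simp

lemma tau_add (p q : Pt) : tau (p + q) = (tau p).comp (tau q) := by
  apply ringHom_ext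
  intro v
  simp only [tau_uu, RingHom.comp_apply]
  congr 1
  abel

lemma tau_add_apply (p q : Pt) (x : RR) : tau (p + q) x = tau p (tau q x) := by
  rw [tau_add]; rfl

lemma tau_zero_apply (x : RR) : tau 0 x = x := by
  rw [tau_zero]; rfl

/-! ### nilpotent ideals -/

/-- the ideal generated by the `u v` with `v` on finitely many parallel lines -/
noncomputable def KK (T : Set Pt) (z : Pt) : Ideal RR :=
  Ideal.span {r | ∃ t ∈ T, ∃ n : ℤ, r = uu (t + n • z)}

lemma KK_mono {T T' : Set Pt} (h : T ⊆ T') (z : Pt) : KK T z ≤ KK T' z :=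
  Ideal.span_mono (by rintro _ ⟨t, ht, n, rfl⟩; exact ⟨t, h ht, n, rfl⟩)

lemma KK_zero_le (T : Set Pt) (z : Pt) : KK T 0 ≤ KK T z :=
  Ideal.span_mono (by rintro _ ⟨t, ht, n, rfl⟩; exact ⟨t, ht, 0, by simp⟩)

lemma KK_single (t z : Pt) : (KK {t} z) ^ 3 = ⊥ := by
  have h3 : (KK {t} z) ^ 3 = KK {t} z * KK {t} z * KK {t} z := by ring
  rw [h3, eq_bot_iff, KK, Ideal.span_mul_span', Ideal.span_mul_span', Ideal.span_le]
  rintro _ ⟨_, ⟨_, ⟨_, rfl, a, rfl⟩, _, ⟨_, rfl, b, rfl⟩, rfl⟩, _, ⟨_, rfl, c, rfl⟩, rfl⟩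
  rw [SetLike.mem_coe, Ideal.mem_bot]
  apply uu_mul
  simp only [det3, Prod.fst_add, Prod.snd_add, Prod.smul_fst, Prod.smul_snd, smul_eq_mul]
  ring

lemma KK_union (T T' : Set Pt) (z : Pt) : KK (T ∪ T') z = KK T z ⊔ KK T' z := by
  rw [KK, KK, KK, ← Ideal.span_union]
  congr 1
  ext r
  constructor
  · rintro ⟨t, ht | ht, n, rfl⟩
    · exact Or.inl ⟨t, ht, n, rfl⟩
    · exact Or.inr ⟨t, ht, n, rfl⟩
  · rintro (⟨t, ht, n, rfl⟩ | ⟨t, ht, n, rfl⟩)
    · exact ⟨t, Or.inl ht, n, rfl⟩
    · exact ⟨t, Or.inr ht, n, rfl⟩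

lemma KK_nilpotent {T : Set Pt} (hT : T.Finite) (z : Pt) : ∃ n, (KK T z) ^ n = ⊥ := by
  induction T, hT using Set.Finite.induction_on with
  | empty =>
    have h0 : KK ∅ z = ⊥ := by
      rw [KK]
      have : {r : RR | ∃ t ∈ (∅ : Set Pt), ∃ n : ℤ, r = uu (t + n • z)} = ∅ := by
        ext r; simp
      rw [this, Ideal.span_empty]
    exact ⟨1, by rw [h0, pow_one]⟩
  | @insert t T _ _ ih =>
    obtain ⟨n, hn⟩ := ih
    refine ⟨3 + n, ?_⟩
    rw [Set.insert_eq, KK_union, eq_bot_iff]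
    refine Ideal.sup_pow_add_le_pow_sup_pow.trans ?_
    rw [KK_single, hn, sup_idem]

lemma tau_KK (T : Set Pt) (z : Pt) (k : ℤ) {x : RR} (hx : x ∈ KK T z) : tau (k • z) x ∈ KK T z := by
  have h : KK T z ≤ Ideal.comap (tau (k • z)) (KK T z) := by
    rw [KK, Ideal.span_le]
    rintro _ ⟨t, ht, n, rfl⟩
    rw [SetLike.mem_coe, Ideal.mem_comap, tau_uu]
    apply Ideal.subset_span
    refine ⟨t, ht, n + k, ?_⟩
    rw [add_smul, add_assoc]
  exact h hx

lemma tau_KK_any (T : Set Pt) (p : Pt) {x : RR} (hx : x ∈ KK T 0) :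
    tau p x ∈ KK ((fun t => t + p) '' T) 0 := by
  have h : KK T 0 ≤ Ideal.comap (tau p) (KK ((fun t => t + p) '' T) 0) := by
    rw [KK, Ideal.span_le]
    rintro _ ⟨t, ht, n, rfl⟩
    rw [SetLike.mem_coe, Ideal.mem_comap, tau_uu]
    apply Ideal.subset_span
    refine ⟨t + p, ⟨t, ht, rfl⟩, 0, by simp⟩
  exact h hx

/-! ### non-vanishing -/

/-- a set in general position -/
def GenPos (S : Finset Pt) : Prop := ∀ v ∈ S, ∀ w ∈ S, ∀ z ∈ S, v ≠ w → w ≠ z → v ≠ z →
  det3 v w z ≠ 0

lemma prod_X_notMem {S : Finset Pt} (hS : GenPos S) : (∏ v ∈ S, X v) ∉ relI := by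
  classical
  have h1 : (∏ v ∈ S, X v : MvPolynomial Pt (ZMod 2)) =
      monomial (∑ v ∈ S, Finsupp.single v 1) 1 := by
    rw [monomial_sum_one]
    rfl
  rw [h1, relI, mem_ideal_span_monomial_image]
  intro h
  obtain ⟨m, ⟨v, w, z, hdet, rfl⟩, hle⟩ := h (∑ v ∈ S, Finsupp.single v 1) (by
    rw [mem_support_iff, coeff_monomial, if_pos rfl]
    exact one_ne_zero)
  have hcoef : ∀ p : Pt, (∑ v ∈ S, Finsupp.single v 1 : Pt →₀ ℕ) p = if p ∈ S then 1 else 0 := by
    intro p
    rw [Finsupp.finsetSum_apply]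
    simp only [Finsupp.single_apply]
    simp
  have hle' : ∀ p : Pt, (if v = p then 1 else 0) + (if w = p then 1 else 0) +
      (if z = p then 1 else 0) ≤ if p ∈ S then 1 else 0 := by
    intro p
    have := hle p
    rw [hcoef] at this
    simpa [Finsupp.single_apply] using this
  have hv := hle' v
  have hw := hle' w
  have hz := hle' z
  have hvS : v ∈ S := by
    by_contra hc
    rw [if_neg hc, if_pos rfl] at hv
    omega
  have hwS : w ∈ S := by
    by_contra hc
    rw [if_neg hc] at hw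
    simp at hw
  have hzS : z ∈ S := by
    by_contra hc
    rw [if_neg hc] at hz
    simp at hz
  have hvw : v ≠ w := by
    rintro rfl
    rw [if_pos hvS, if_pos rfl] at hv
    omega
  have hvz : v ≠ z := by
    rintro rfl
    rw [if_pos hvS, if_pos rfl] at hv
    omega
  have hwz : w ≠ z := by
    rintro rfl
    rw [if_pos hwS, if_pos rfl] at hw
    omega
  exact hS v hvS w hwS z hzS hvw hwz hvz hdet

/-- differences of generators in general position have nonzero products -/
lemma prod_sub_ne_zero {n : ℕ} (v w : Fin n → Pt) (hv : Function.Injective v)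
    (hvw : ∀ i j, v i ≠ w j) (hS : GenPos (Finset.univ.image v)) :
    ∏ i, (uu (v i) - uu (w i)) ≠ 0 := by
  classical
  intro h
  have h1 : (∏ i, (uu (v i) - uu (w i))) =
      Ideal.Quotient.mk relI (∏ i, (X (v i) - X (w i))) := by
    rw [map_prod]
    rfl
  rw [h1, Ideal.Quotient.eq_zero_iff_mem] at h
  -- kill the variables `w`
  let θ : MvPolynomial Pt (ZMod 2) →ₐ[ZMod 2] MvPolynomial Pt (ZMod 2) :=
    aeval (fun p => if p ∈ Finset.univ.image v then X p else 0)
  have hθ : relI ≤ Ideal.comap θ relI := by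
    rw [relI, Ideal.span_le]
    rintro _ ⟨m, ⟨a, b, c, hd, rfl⟩, rfl⟩
    rw [SetLike.mem_coe, Ideal.mem_comap]
    have e1 : (monomial (Finsupp.single a 1 + Finsupp.single b 1 + Finsupp.single c 1)
        (1 : ZMod 2)) = X a * X b * X c := by
      rw [X, X, X, monomial_mul, monomial_mul, one_mul, one_mul]
    show θ (monomial (Finsupp.single a 1 + Finsupp.single b 1 + Finsupp.single c 1)
        (1 : ZMod 2)) ∈ _
    have hmem : (X a * X b * X c : MvPolynomial Pt (ZMod 2)) ∈
        Ideal.span ((fun s => monomial s (1 : ZMod 2)) '' gens) := by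
      rw [← e1]
      exact Ideal.subset_span ⟨_, ⟨a, b, c, hd, rfl⟩, rfl⟩
    rw [e1, map_mul, map_mul, aeval_X, aeval_X, aeval_X]
    split_ifs
    all_goals simp [hmem]
  have h2 := hθ h
  rw [Ideal.mem_comap, map_prod] at h2
  have h3 : ∀ i, θ (X (v i) - X (w i)) = X (v i) := by
    intro i
    rw [map_sub, aeval_X, aeval_X, if_pos (Finset.mem_image_of_mem v (Finset.mem_univ i)), if_neg,
      sub_zero]
    rw [Finset.mem_image]
    rintro ⟨j, -, hj⟩
    exact hvw j i hj
  rw [Finset.prod_congr rfl fun i _ => h3 i] at h2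
  apply prod_X_notMem hS
  rw [Finset.prod_image (fun i _ j _ hij => hv hij)]
  exact h2

/-- points on a parabola -/
def par (n : ℕ) : Pt := ((n : ℤ), (n : ℤ) ^ 2)

lemma par_inj : Function.Injective par := by
  intro m n h
  have := congrArg Prod.fst h
  simpa [par] using this

lemma par_det {i j k : ℕ} (h1 : i ≠ j) (h2 : j ≠ k) (h3 : i ≠ k) :
    det3 (par i) (par j) (par k) ≠ 0 := by
  have h : det3 (par i) (par j) (par k) = ((j : ℤ) - i) * (k - i) * (k - j) := by
    simp only [det3, par]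
    ring
  rw [h]
  have e1 : (j : ℤ) - i ≠ 0 := by omega
  have e2 : (k : ℤ) - i ≠ 0 := by omega
  have e3 : (k : ℤ) - j ≠ 0 := by omega
  exact mul_ne_zero (mul_ne_zero e1 e2) e3

end Pool.Agent.V1128.Sol
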