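import Mathlib
import Pool.Agent.V1128.Sol.Ring
import Pool.Agent.V1128.Sol.Fin

set_option autoImplicit false

namespace Pool.Agent.V1128.Sol

/-- translations act on the units -/
noncomputable def tauU (p : Pt) : RRˣ →* RRˣ := Units.map (tau p : RR →* RR)

@[simp] lemma tauU_val (p : Pt) (e : RRˣ) : ((tauU p e : RRˣ) : RR) = tau p e := rfl

lemma tauU_zero (e : RRˣ) : tauU 0 e = e := by
  apply Units.ext; simp [tau_zero_apply]

lemma tauU_add (p q : Pt) (e : RRˣ) : tauU (p + q) e = tauU p (tauU q e) := by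
  apply Units.ext; simp [tau_add_apply]

/-- the group of the maps `f ↦ e * τ_z f + r` -/
@[ext] structure Aff where
  r : RR
  e : RRˣ
  z : Pt

namespace Aff

noncomputable instance : Mul Aff := ⟨fun g h => ⟨g.r + g.e * tau g.z h.r, g.e * tauU g.z h.e, g.z + h.z⟩⟩
noncomputable instance : One Aff := ⟨⟨0, 1, 0⟩⟩
noncomputable instance : Inv Aff := ⟨fun g => ⟨-(tau (-g.z) ((g.e⁻¹ : RRˣ) * g.r)), tauU (-g.z) g.e⁻¹, -g.z⟩⟩

@[simp] lemma mul_r (g h : Aff) : (g * h).r = g.r + g.e * tau g.z h.r := rfl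
@[simp] lemma mul_e (g h : Aff) : (g * h).e = g.e * tauU g.z h.e := rfl
@[simp] lemma mul_z (g h : Aff) : (g * h).z = g.z + h.z := rfl
@[simp] lemma one_r : (1 : Aff).r = 0 := rfl
@[simp] lemma one_e : (1 : Aff).e = 1 := rfl
@[simp] lemma one_z : (1 : Aff).z = 0 := rfl
@[simp] lemma inv_r (g : Aff) : (g⁻¹).r = -(tau (-g.z) ((g.e⁻¹ : RRˣ) * g.r)) := rfl
@[simp] lemma inv_e (g : Aff) : (g⁻¹).e = tauU (-g.z) g.e⁻¹ := rfl
@[simp] lemma inv_z (g : Aff) : (g⁻¹).z = -g.z := rfl

noncomputable instance : Group Aff where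
  mul_assoc a b c := by
    apply Aff.ext
    · simp only [mul_r, mul_e, mul_z, map_add, map_mul, tau_add_apply, Units.val_mul, tauU_val]
      ring
    · simp only [mul_e, mul_z, map_mul, tauU_add, mul_assoc]
    · simp only [mul_z, add_assoc]
  one_mul a := by
    apply Aff.ext
    · simp [tau_zero_apply]
    · simp [tauU_zero]
    · simp
  mul_one a := by
    apply Aff.ext <;> simp
  inv_mul_cancel a := by
    apply Aff.ext
    · simp only [mul_r, inv_r, inv_e, inv_z, tauU_val, one_r, map_mul]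
      ring
    · simp only [mul_e, inv_e, inv_z, ← map_mul, inv_mul_cancel, map_one, one_e]
    · simp

/-- projection to the lattice -/
noncomputable def zHom : Aff →* Multiplicative Pt where
  toFun g := Multiplicative.ofAdd g.z
  map_one' := rfl
  map_mul' _ _ := rfl

lemma mem_ker_zHom (g : Aff) : g ∈ zHom.ker ↔ g.z = 0 := Iff.rfl

/-- projection to the units on the kernel -/
noncomputable def eHom : zHom.ker →* RRˣ where
  toFun g := g.1.e
  map_one' := rfl
  map_mul' g h := by
    have hg : g.1.z = 0 := g.2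
    show g.1.e * tauU g.1.z h.1.e = _
    rw [hg, tauU_zero]

instance : Group.IsSolvable Aff := by
  have h1 : Group.IsSolvable eHom.ker := by
    apply Group.isSolvable_of_comm
    rintro ⟨⟨a, ha⟩, ha'⟩ ⟨⟨b, hb⟩, hb'⟩
    have ea : a.e = 1 := ha'
    have eb : b.e = 1 := hb'
    have za : a.z = 0 := ha
    have zb : b.z = 0 := hb
    apply Subtype.ext
    apply Subtype.ext
    show a * b = b * a
    apply Aff.ext
    · simp [ea, eb, za, zb, tau_zero_apply, add_comm]
    · simp [ea, eb]
    · simp [za, zb]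
  have h3 : Group.IsSolvable RRˣ := Group.isSolvable_of_comm fun a b => mul_comm a b
  have h4 : Group.IsSolvable (Multiplicative Pt) := Group.isSolvable_of_comm fun a b => mul_comm a b
  have h2 : Group.IsSolvable zHom.ker :=
    Group.isSolvable_of_ker_le_range eHom.ker.subtype eHom (by rw [Subgroup.range_subtype])
  exact Group.isSolvable_of_ker_le_range zHom.ker.subtype zHom (by rw [Subgroup.range_subtype])

/-! ### the elements of the generating set -/

/-- `f ↦ f + r` -/
noncomputable def ad (r : RR) : Aff := ⟨r, 1, 0⟩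
/-- `f ↦ e f` -/
noncomputable def un (e : RRˣ) : Aff := ⟨0, e, 0⟩
/-- `f ↦ τ_z f` -/
noncomputable def tr (z : Pt) : Aff := ⟨0, 1, z⟩

lemma cc_aux (v : Pt) : uu v * uu v * uu v = 0 := uu_mul v v v (by simp [det3])

/-- the unit `1 + u v` -/
noncomputable def cc (v : Pt) : RRˣ where
  val := 1 + uu v
  inv := 1 - uu v + uu v * uu v
  val_inv := by linear_combination cc_aux v
  inv_val := by linear_combination cc_aux v

lemma tauU_cc (p v : Pt) : tauU p (cc v) = cc (v + p) := by
  apply Units.ext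
  simp [cc]

lemma tr_conj (v : Pt) : tr v * un (cc 0) * (tr v)⁻¹ = un (cc v) := by
  apply Aff.ext
  · simp [tr, un]
  · simp [tr, un, tauU_cc]
  · simp [tr, un]

lemma ad_comm (v : Pt) : un (cc v) * ad 1 * (un (cc v))⁻¹ * (ad 1)⁻¹ = ad (uu v) := by
  apply Aff.ext
  · simp [ad, un, tau_zero_apply, cc]
    linear_combination -cc_aux v
  · simp [ad, un, tauU_zero]
  · simp [ad, un]

end Aff

end Pool.Agent.V1128.Sol
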