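import Mathlib
import Pool.Agent.V1128.Sol.Grp

set_option autoImplicit false

namespace Pool.Agent.V1128.Sol

namespace Aff

/-- the group of the example -/
noncomputable def GG : Subgroup Aff :=
  Subgroup.closure {ad 1, un (cc 0), tr (1, 0), tr (0, 1)}

lemma sub_one_mul (g h : Aff) : (((g * h).e : RRˣ) : RR) - 1 =
    ((g.e : RR) - 1) * tau g.z h.e + tau g.z ((h.e : RR) - 1) := by
  simp only [mul_e, Units.val_mul, tauU_val, map_sub, map_one]
  ring

lemma sub_one_inv (g : Aff) : (((g⁻¹).e : RRˣ) : RR) - 1 =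
    tau (-g.z) (-((g.e⁻¹ : RRˣ) : RR) * ((g.e : RR) - 1)) := by
  have h : -((g.e⁻¹ : RRˣ) : RR) * ((g.e : RR) - 1) = ((g.e⁻¹ : RRˣ) : RR) - 1 := by
    have := Units.inv_mul g.e
    linear_combination -this
  rw [h, inv_e, tauU_val, map_sub, map_one]

/-- every element of `GG` has multiplier congruent to one modulo a small ideal -/
lemma exists_finite {g : Aff} (hg : g ∈ GG) : ∃ T : Set Pt, T.Finite ∧ (g.e : RR) - 1 ∈ KK T 0 := by
  induction hg using Subgroup.closure_induction with
  | mem x hx =>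
    rcases hx with rfl | rfl | rfl | rfl
    · exact ⟨∅, Set.finite_empty, by simp [ad]⟩
    · refine ⟨{0}, Set.finite_singleton _, ?_⟩
      have : (((un (cc 0)).e : RRˣ) : RR) - 1 = uu 0 := by
        simp [un, cc]
      rw [this]
      exact Ideal.subset_span ⟨0, rfl, 0, by simp⟩
    · exact ⟨∅, Set.finite_empty, by simp [tr]⟩
    · exact ⟨∅, Set.finite_empty, by simp [tr]⟩
  | one => exact ⟨∅, Set.finite_empty, by simp⟩
  | mul g h _ _ hg hh =>
    obtain ⟨T, hT, hg⟩ := hg
    obtain ⟨T', hT', hh⟩ := hh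
    refine ⟨T ∪ (fun t => t + g.z) '' T', hT.union (hT'.image _), ?_⟩
    rw [sub_one_mul]
    apply Ideal.add_mem
    · exact Ideal.mul_mem_right _ _ (KK_mono Set.subset_union_left _ hg)
    · exact KK_mono Set.subset_union_right _ (tau_KK_any _ _ hh)
  | inv g _ hg =>
    obtain ⟨T, hT, hg⟩ := hg
    refine ⟨(fun t => t + (-g.z)) '' T, hT.image _, ?_⟩
    rw [sub_one_inv]
    exact tau_KK_any _ _ (Ideal.mul_mem_left _ _ hg)

lemma comm_z (X Y : Aff) (hX : X.z = 0) (hY : Y.z = 0) : (X * Y * X⁻¹ * Y⁻¹).z = 0 := by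
  simp [hX, hY]

lemma comm_e (X Y : Aff) (hX : X.z = 0) (hY : Y.z = 0) : (X * Y * X⁻¹ * Y⁻¹).e = 1 := by
  simp only [mul_e, mul_z, inv_e, inv_z, hX, hY, neg_zero, add_zero, tauU_zero]
  rw [mul_comm X.e Y.e]
  simp

lemma comm_r (X Y : Aff) (hX : X.z = 0) (hY : Y.z = 0) (he : X.e = 1) :
    (X * Y * X⁻¹ * Y⁻¹).r = (1 - Y.e) * X.r := by
  simp only [mul_r, mul_e, mul_z, inv_r, inv_e, inv_z, hX, hY, neg_zero, add_zero, tauU_zero,
    tau_zero_apply, he, inv_one, Units.val_one, one_mul, mul_one]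
  have := Units.mul_inv Y.e
  linear_combination -Y.r * this

/-- a criterion for being nilpotent-by-cyclic -/
lemma isNPF_of {L : Type} [Group L] (i : L →* Aff) (hi : Function.Injective i) (T : Set Pt)
    (hT : T.Finite) (z₀ : Pt) (he : ∀ l, ((i l).e : RR) - 1 ∈ KK T z₀)
    (hz : ∀ l, ∃ k : ℤ, (i l).z = k • z₀) : IsNPF L := by
  refine ⟨(zHom.comp i).ker, inferInstance, ?_, ?_⟩
  · rw [Subgroup.nilpotent_iff_finite_descending_central_series]
    obtain ⟨n, hn⟩ := KK_nilpotent hT z₀
    let H' : ℕ → Subgroup (zHom.comp i).ker := fun m =>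
      { carrier := {x | (i x.1).e = 1 ∧ (i x.1).r ∈ (KK T z₀) ^ m}
        one_mem' := by simp
        mul_mem' := by
          rintro ⟨a, ha⟩ ⟨b, hb⟩ ⟨ha1, ha2⟩ ⟨hb1, hb2⟩
          have za : (i a).z = 0 := ha
          constructor
          · show (i (a * b)).e = 1
            rw [map_mul, mul_e, za, tauU_zero, ha1, hb1, one_mul]
          · show (i (a * b)).r ∈ _
            rw [map_mul, mul_r, za, tau_zero_apply, ha1, Units.val_one, one_mul]
            exact Ideal.add_mem _ ha2 hb2
        inv_mem' := by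
          rintro ⟨a, ha⟩ ⟨ha1, ha2⟩
          have za : (i a).z = 0 := ha
          constructor
          · show (i a⁻¹).e = 1
            rw [map_inv, inv_e, za, ha1, inv_one, map_one]
          · show (i a⁻¹).r ∈ _
            rw [map_inv, inv_r, za, ha1, inv_one, neg_zero, tau_zero_apply, Units.val_one, one_mul]
            exact (Ideal.neg_mem_iff _).mpr ha2 }
    refine ⟨n + 1, fun m => Nat.casesOn m ⊤ H', ⟨rfl, ?_⟩, ?_⟩
    · rintro ⟨x, hx⟩ m hxm ⟨g, hg⟩
      have zx : (i x).z = 0 := hx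
      have zg : (i g).z = 0 := hg
      cases m with
      | zero =>
        show _ ∈ H' 0
        constructor
        · show (i (x * g * x⁻¹ * g⁻¹)).e = 1
          rw [map_mul, map_mul, map_mul, map_inv, map_inv]
          exact comm_e _ _ zx zg
        · simp
      | succ m =>
        obtain ⟨h1, h2⟩ := hxm
        show _ ∈ H' (m + 1)
        constructor
        · show (i (x * g * x⁻¹ * g⁻¹)).e = 1
          rw [map_mul, map_mul, map_mul, map_inv, map_inv]
          exact comm_e _ _ zx zg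
        · show (i (x * g * x⁻¹ * g⁻¹)).r ∈ _
          rw [map_mul, map_mul, map_mul, map_inv, map_inv, comm_r _ _ zx zg h1]
          rw [Submodule.pow_succ, mul_comm]
          apply Ideal.mul_mem_mul h2
          have := he g
          have h3 : (1 : RR) - ((i g).e : RR) = -(((i g).e : RR) - 1) := by ring
          rw [h3]
          exact (Ideal.neg_mem_iff _).mpr this
    · show H' n = ⊥
      rw [Subgroup.eq_bot_iff_forall]
      rintro ⟨x, hx⟩ ⟨h1, h2⟩
      have zx : (i x).z = 0 := hx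
      rw [hn, Ideal.mem_bot] at h2
      apply Subtype.ext
      apply hi
      rw [Subgroup.coe_one, map_one]
      exact Aff.ext h2 h1 zx
  · have hr : (zHom.comp i).range ≤ Subgroup.zpowers (Multiplicative.ofAdd z₀) := by
      rintro _ ⟨l, rfl⟩
      obtain ⟨k, hk⟩ := hz l
      refine ⟨k, ?_⟩
      show (Multiplicative.ofAdd z₀) ^ k = Multiplicative.ofAdd (i l).z
      rw [hk, ofAdd_zsmul]
    have hc : IsCyclic (zHom.comp i).range :=
      isCyclic_of_injective (Subgroup.inclusion hr) (Subgroup.inclusion_injective hr)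
    have hc2 : IsCyclic (L ⧸ (zHom.comp i).ker) :=
      isCyclic_of_injective (QuotientGroup.quotientKerEquivRange (zHom.comp i)).toMonoidHom
        (QuotientGroup.quotientKerEquivRange (zHom.comp i)).injective
    exact IsPolycyclicByFinite.of_isCyclic

/-- subgroups generated by two conjugate elements are nilpotent-by-cyclic -/
lemma isNPF_closure (x y : GG) : IsNPF (Subgroup.closure {x, y⁻¹ * x * y} : Subgroup GG) := by
  obtain ⟨T₁, hT₁, h₁⟩ := exists_finite x.2
  obtain ⟨T₂, hT₂, h₂⟩ := exists_finite (y⁻¹ * x * y).2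
  have key : ∀ l ∈ (Subgroup.closure {x, y⁻¹ * x * y} : Subgroup GG),
      ((l.1.e : RR) - 1 ∈ KK (T₁ ∪ T₂) x.1.z) ∧ ∃ k : ℤ, l.1.z = k • x.1.z := by
    intro l hl
    induction hl using Subgroup.closure_induction with
    | mem l hl =>
      rcases hl with rfl | rfl
      · exact ⟨KK_zero_le _ _ (KK_mono Set.subset_union_left _ h₁), 1, by simp⟩
      · refine ⟨KK_zero_le _ _ (KK_mono Set.subset_union_right _ h₂), 1, ?_⟩
        show (y.1⁻¹ * x.1 * y.1).z = _
        rw [mul_z, mul_z, inv_z, one_smul]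
        abel
    | one => exact ⟨by simp, 0, by simp⟩
    | mul g h _ _ hg hh =>
      obtain ⟨hg1, k, hk⟩ := hg
      obtain ⟨hh1, k', hk'⟩ := hh
      constructor
      · rw [Subgroup.coe_mul, sub_one_mul]
        apply Ideal.add_mem
        · exact Ideal.mul_mem_right _ _ hg1
        · rw [hk]
          exact tau_KK _ _ _ hh1
      · refine ⟨k + k', ?_⟩
        rw [Subgroup.coe_mul, mul_z, hk, hk', add_smul]
    | inv g _ hg =>
      obtain ⟨hg1, k, hk⟩ := hg
      constructor
      · rw [Subgroup.coe_inv, sub_one_inv, hk, ← neg_smul]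
        exact tau_KK _ _ _ (Ideal.mul_mem_left _ _ hg1)
      · refine ⟨-k, ?_⟩
        rw [Subgroup.coe_inv, inv_z, hk, neg_smul]
  exact isNPF_of (GG.subtype.comp (Subgroup.closure {x, y⁻¹ * x * y} : Subgroup GG).subtype)
    (by
      intro a b hab
      exact Subtype.ext (Subtype.ext hab)) (T₁ ∪ T₂) (hT₁.union hT₂) x.1.z
    (fun l => (key l.1 l.2).1) (fun l => (key l.1 l.2).2)

lemma inStar : InStar GG := by
  intro S hS
  obtain ⟨x, hx, y, hy, hxy⟩ := hS.nontrivial
  exact ⟨x, hx, y, hy, hxy, isNPF_closure x y⟩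

end Aff

end Pool.Agent.V1128.Sol
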