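import Mathlib
import Pool.Agent.V1128.Sol.Pairs

set_option autoImplicit false

namespace Pool.Agent.V1128.Sol

namespace Aff

open scoped commutatorElement

lemma ad_one_mem : ad 1 ∈ GG := Subgroup.subset_closure (by simp)
lemma un_zero_mem : un (cc 0) ∈ GG := Subgroup.subset_closure (by simp)

lemma tr_mul (z w : Pt) : tr z * tr w = tr (z + w) := by
  apply Aff.ext <;> simp [tr]

/-- translations as a homomorphism -/
noncomputable def trHom : Multiplicative Pt →* Aff where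
  toFun z := tr z.toAdd
  map_one' := rfl
  map_mul' z w := (tr_mul z.toAdd w.toAdd).symm

lemma tr_mem (z : Pt) : tr z ∈ GG := by
  have h1 : tr (1, 0) ∈ GG := Subgroup.subset_closure (by simp)
  have h2 : tr (0, 1) ∈ GG := Subgroup.subset_closure (by simp)
  have h : tr z = tr (1, 0) ^ z.1 * tr (0, 1) ^ z.2 := by
    have e1 : tr (1, 0) ^ z.1 = trHom (Multiplicative.ofAdd (z.1 • ((1, 0) : Pt))) := by
      rw [ofAdd_zsmul, map_zpow]; rfl
    have e2 : tr (0, 1) ^ z.2 = trHom (Multiplicative.ofAdd (z.2 • ((0, 1) : Pt))) := by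
      rw [ofAdd_zsmul, map_zpow]; rfl
    rw [e1, e2, ← map_mul, ← ofAdd_add]
    show tr z = tr _
    congr 1
    ext <;> simp
  rw [h]
  exact GG.mul_mem (GG.zpow_mem h1 _) (GG.zpow_mem h2 _)

lemma un_mem (v : Pt) : un (cc v) ∈ GG := by
  rw [← tr_conj]
  exact GG.mul_mem (GG.mul_mem (tr_mem v) un_zero_mem) (GG.inv_mem (tr_mem v))

lemma ad_mem (v : Pt) : ad (uu v) ∈ GG := by
  rw [← ad_comm]
  exact GG.mul_mem (GG.mul_mem (GG.mul_mem (un_mem v) ad_one_mem) (GG.inv_mem (un_mem v)))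
    (GG.inv_mem ad_one_mem)

lemma pow_two_pow_sub (a : RR) (k : ℕ) : a ^ 2 ^ k - 1 = (a - 1) ^ 2 ^ k := by
  induction k with
  | zero => simp
  | succ k ih =>
    rw [pow_succ, pow_mul, pow_mul, ← ih]
    linear_combination (a ^ 2 ^ k - 1) * two_eq_zero

/-- the pure part is torsion -/
lemma isOfFinOrder_of_z {g : Aff} (hg : g ∈ GG) (hz : g.z = 0) : IsOfFinOrder g := by
  obtain ⟨T, hT, h1⟩ := exists_finite hg
  obtain ⟨n, hn⟩ := KK_nilpotent hT 0
  have hpow : ((g.e : RR) - 1) ^ n = 0 := by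
    have := Ideal.pow_mem_pow h1 n
    rw [hn, Ideal.mem_bot] at this
    exact this
  have h2 : (g.e : RR) ^ 2 ^ n = 1 := by
    have h3 : ((g.e : RR) - 1) ^ 2 ^ n = 0 := by
      have h4 : 2 ^ n = n + (2 ^ n - n) := by
        have := Nat.lt_two_pow_self (n := n)
        omega
      rw [h4, pow_add, hpow, zero_mul]
    have := pow_two_pow_sub (g.e : RR) n
    rw [h3] at this
    linear_combination this
  have hze : ∀ m : ℕ, (g ^ m).z = 0 ∧ (g ^ m).e = g.e ^ m := by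
    intro m
    induction m with
    | zero => simp
    | succ m ih => rw [pow_succ, mul_z, mul_e, ih.1, ih.2, tauU_zero, hz, pow_succ]; simp
  rw [isOfFinOrder_iff_pow_eq_one]
  refine ⟨2 ^ n * 2, by positivity, ?_⟩
  rw [pow_mul, pow_two]
  have hz' := (hze (2 ^ n)).1
  have he' : (g ^ 2 ^ n).e = 1 := by
    rw [(hze (2 ^ n)).2]
    apply Units.ext
    rw [Units.val_pow_eq_pow_val, h2, Units.val_one]
  apply Aff.ext
  · rw [mul_r, hz', he', tau_zero_apply, Units.val_one, one_r]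
    linear_combination (g ^ 2 ^ n).r * two_eq_zero
  · rw [mul_e, hz', he', tauU_zero, one_e, mul_one]
  · rw [mul_z, hz', add_zero, one_z]

/-- pigeonhole principle in the quotients -/
lemma exists_pair {K : Subgroup GG} [K.Normal] (hK : IsPolycyclicByFinite (GG ⧸ K)) (f : ℕ → GG)
    (hf : ∀ k, (f k).1.z = 0) : ∃ k k' : ℕ, k ≠ k' ∧ (f k)⁻¹ * f k' ∈ K := by
  let D : Subgroup GG := (zHom.comp GG.subtype).ker
  have hfin : ((D.map (QuotientGroup.mk' K) : Subgroup (GG ⧸ K)) : Set (GG ⧸ K)).Finite := by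
    apply hK.finite_of_torsion
    rintro _ ⟨d, hd, rfl⟩
    apply MonoidHom.isOfFinOrder
    obtain ⟨n, hn, h⟩ := isOfFinOrder_iff_pow_eq_one.mp (isOfFinOrder_of_z d.2 hd)
    exact isOfFinOrder_iff_pow_eq_one.mpr ⟨n, hn, Subtype.ext h⟩
  have hmem : ∀ k, QuotientGroup.mk' K (f k) ∈
      ((D.map (QuotientGroup.mk' K) : Subgroup (GG ⧸ K)) : Set (GG ⧸ K)) :=
    fun k => ⟨f k, hf k, rfl⟩
  have : Finite ((D.map (QuotientGroup.mk' K) : Subgroup (GG ⧸ K)) : Set (GG ⧸ K)) := hfin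
  obtain ⟨k, k', hne, heq⟩ := Finite.exists_ne_map_eq_of_infinite
    (fun k : ℕ => (⟨QuotientGroup.mk' K (f k), hmem k⟩ :
      ((D.map (QuotientGroup.mk' K) : Subgroup (GG ⧸ K)) : Set (GG ⧸ K))))
  refine ⟨k, k', hne, ?_⟩
  rw [← QuotientGroup.eq]
  exact congrArg Subtype.val heq

/-- the index of a point -/
def idx (b k : ℕ) : Pt := par (Nat.pair b k)

lemma idx_inj {b k b' k' : ℕ} (h : idx b k = idx b' k') : b = b' ∧ k = k' :=
  Nat.pair_eq_pair.mp (par_inj h)

lemma comm_ad_un (r : RR) (e : RRˣ) : ⁅ad r, un e⁆ = ad ((1 - e) * r) := by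
  rw [commutatorElement_def]
  apply Aff.ext
  · rw [comm_r _ _ rfl rfl rfl]
    rfl
  · exact comm_e _ _ rfl rfl
  · exact comm_z _ _ rfl rfl

lemma ad_inv_mul (r s : RR) : (ad r)⁻¹ * ad s = ad (s - r) := by
  apply Aff.ext
  · simp [ad, tau_zero_apply]
    ring
  · simp [ad]
  · simp [ad]

lemma un_inv_mul (e f : RRˣ) : (un e)⁻¹ * un f = un (e⁻¹ * f) := by
  apply Aff.ext
  · simp [un]
  · simp [un, tauU_zero]
  · simp [un]

lemma one_sub_cc (v w : Pt) : (1 : RR) - (((cc v)⁻¹ * cc w : RRˣ) : RR) =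
    (((cc v)⁻¹ : RRˣ) : RR) * (uu v - uu w) := by
  have h : (((cc v)⁻¹ : RRˣ) : RR) * (1 + uu v) = 1 := Units.inv_mul (cc v)
  have h2 : ((cc w : RRˣ) : RR) = 1 + uu w := rfl
  rw [Units.val_mul, h2]
  linear_combination -h

/-- the group is not nilpotent-by-(polycyclic-by-finite) -/
theorem not_isNPF : ¬ IsNPF GG := by
  rintro ⟨K, hKn, hnil, hpf⟩
  -- choose elements of `K`
  have h1 : ∀ b : ℕ, ∃ k k' : ℕ, k ≠ k' ∧
      (⟨un (cc (idx b k)), un_mem _⟩ : GG)⁻¹ * ⟨un (cc (idx b k')), un_mem _⟩ ∈ K :=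
    fun b => exists_pair hpf (fun k => ⟨un (cc (idx b k)), un_mem _⟩) (fun k => rfl)
  choose p q hpq hK using h1
  obtain ⟨p₀, q₀, hpq₀, hK₀⟩ := exists_pair hpf (fun k => ⟨ad (uu (idx 0 k)), ad_mem _⟩)
    (fun k => rfl)
  -- pass to the ambient group
  let K' : Subgroup Aff := K.map GG.subtype
  have hκ : ∀ b, un ((cc (idx b (p b)))⁻¹ * cc (idx b (q b))) ∈ K' := by
    intro b
    refine ⟨_, hK b, ?_⟩
    show (un (cc (idx b (p b))))⁻¹ * un (cc (idx b (q b))) = _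
    rw [un_inv_mul]
  have ha : ad (uu (idx 0 q₀) - uu (idx 0 p₀)) ∈ K' := by
    refine ⟨_, hK₀, ?_⟩
    show (ad (uu (idx 0 p₀)))⁻¹ * ad (uu (idx 0 q₀)) = _
    rw [ad_inv_mul]
  obtain ⟨n, hn⟩ := Subgroup.nilpotent_iff_lowerCentralSeries.mp hnil
  have hn' : K'.lowerCentralSeries n = ⊥ := by
    have e1 : K' = (⊤ : Subgroup K).map (GG.subtype.comp K.subtype) := by
      rw [← MonoidHom.range_eq_map, MonoidHom.range_comp, Subgroup.range_subtype]
    rw [e1, ← Subgroup.map_lowerCentralSeries, hn, Subgroup.map_bot]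
  -- iterated commutators
  have hit : ∀ m : ℕ, ad ((∏ b ∈ Finset.range m,
      (1 - (((cc (idx (b + 1) (p (b + 1))))⁻¹ * cc (idx (b + 1) (q (b + 1))) : RRˣ) : RR))) *
      (uu (idx 0 q₀) - uu (idx 0 p₀))) ∈ K'.lowerCentralSeries m := by
    intro m
    induction m with
    | zero => simpa using ha
    | succ m ih =>
      rw [Subgroup.lowerCentralSeries_succ]
      have := Subgroup.commutator_mem_commutator ih (hκ (m + 1))
      rw [comm_ad_un] at this
      rw [Finset.prod_range_succ]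
      convert this using 2
      ring
  have h2 := hit n
  rw [hn', Subgroup.mem_bot] at h2
  have h3 : (∏ b ∈ Finset.range n,
      (1 - (((cc (idx (b + 1) (p (b + 1))))⁻¹ * cc (idx (b + 1) (q (b + 1))) : RRˣ) : RR))) *
      (uu (idx 0 q₀) - uu (idx 0 p₀)) = 0 := congrArg Aff.r h2
  -- the points
  let v : Fin (n + 1) → Pt := Fin.cons (idx 0 q₀) fun b => idx (b + 1) (p (b + 1))
  let w : Fin (n + 1) → Pt := Fin.cons (idx 0 p₀) fun b => idx (b + 1) (q (b + 1))
  have hv : ∀ i, ∃ k, v i = idx i k := by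
    intro i
    refine Fin.cases ⟨_, rfl⟩ (fun b => ?_) i
    refine ⟨p (b + 1), ?_⟩
    simp [v]
  have hw : ∀ i, ∃ k, w i = idx i k := by
    intro i
    refine Fin.cases ⟨_, rfl⟩ (fun b => ?_) i
    refine ⟨q (b + 1), ?_⟩
    simp [w]
  have hvw' : ∀ i, v i ≠ w i := by
    intro i
    refine Fin.cases ?_ (fun b => ?_) i
    · intro h
      exact hpq₀ (idx_inj h).2.symm
    · intro h
      exact hpq (b + 1) (idx_inj (by simpa [v, w] using h)).2
  have hvinj : Function.Injective v := by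
    intro i j hij
    obtain ⟨k, hk⟩ := hv i
    obtain ⟨k', hk'⟩ := hv j
    rw [hk, hk'] at hij
    exact Fin.ext (idx_inj hij).1
  have hvw : ∀ i j, v i ≠ w j := by
    intro i j hij
    by_cases h : i = j
    · subst h
      exact hvw' i hij
    · obtain ⟨k, hk⟩ := hv i
      obtain ⟨k', hk'⟩ := hw j
      rw [hk, hk'] at hij
      exact h (Fin.ext (idx_inj hij).1)
  have hgen : GenPos (Finset.univ.image v) := by
    have hpar : ∀ x ∈ Finset.univ.image v, ∃ i : ℕ, x = par i := by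
      intro x hx
      rw [Finset.mem_image] at hx
      obtain ⟨i, -, rfl⟩ := hx
      obtain ⟨k, hk⟩ := hv i
      exact ⟨_, hk⟩
    intro x hx y hy z hz hxy hyz hxz
    obtain ⟨i, rfl⟩ := hpar x hx
    obtain ⟨j, rfl⟩ := hpar y hy
    obtain ⟨k, rfl⟩ := hpar z hz
    exact par_det (fun h => hxy (by rw [h])) (fun h => hyz (by rw [h])) (fun h => hxz (by rw [h]))
  apply prod_sub_ne_zero v w hvinj hvw hgen
  rw [Fin.prod_univ_succ]
  have e0 : v 0 = idx 0 q₀ := rfl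
  have e1 : w 0 = idx 0 p₀ := rfl
  have e2 : ∀ b : Fin n, uu (v b.succ) - uu (w b.succ) =
      (cc (idx ((b : ℕ) + 1) (p ((b : ℕ) + 1))) : RR) *
      (1 - (((cc (idx ((b : ℕ) + 1) (p ((b : ℕ) + 1))))⁻¹ *
        cc (idx ((b : ℕ) + 1) (q ((b : ℕ) + 1))) : RRˣ) : RR)) := by
    intro b
    rw [one_sub_cc, ← mul_assoc, Units.mul_inv, one_mul]
    simp [v, w]
  rw [e0, e1, Finset.prod_congr rfl fun b _ => e2 b, Finset.prod_mul_distrib]
  rw [← Fin.prod_univ_eq_prod_range] at h3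
  linear_combination (∏ b : Fin n, (cc (idx ((b : ℕ) + 1) (p ((b : ℕ) + 1))) : RR)) * h3

end Aff

end Pool.Agent.V1128.Sol
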